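import Pool.Agent.Lib.MP_ad30dc_co.U11

/-!
# MP_ad30dc_co: every orientation `C` of a cycle satisfies `mader(C) ≤ 2 |C| - 1`

Let `C = orientedCycle n o` be any orientation of the cycle with `n ≥ 3` vertices (directed cycles
included). Every nonempty finite digraph without loops (digons allowed) in which every vertex has
at least `2 n - 1` out-neighbours contains a subdivision of `C`. This is the full answer (yes) to
the question of Aboulker et al.
-/

open MP_ad30dc_co

namespace Pool.Agent.Results.MP_ad30dc_co.FullBound

theorem result {V : Type*} [Finite V] [Nonempty V] (n : ℕ) (hn : 3 ≤ n) (o : ZMod n → Bool)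
    (D : Digraph V) (hD : ∀ v, ¬ D.Adj v v)
    (hdeg : ∀ v, 2 * n - 1 ≤ {w | D.Adj v w}.ncard) :
    ContainsSubdivision (orientedCycle n o) D :=
  main_full n hn o D hD hdeg

end Pool.Agent.Results.MP_ad30dc_co.FullBound
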